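import Pool.Agent.Helper71.UQ.Goals

/-!
# Project UQ (MP_9b2a83_an), goal COV
-/

set_option autoImplicit false

namespace Pool.Agent.Helper9.UQ.PkCOV

open Finset

/-- Bernoulli in the form needed. -/
theorem bern (c n : ℕ) : c ^ (n + 1) + (n + 1) * c ^ n ≤ (c + 1) ^ (n + 1) := by
  induction n with
  | zero => simp
  | succ n ih =>
    calc c ^ (n + 1 + 1) + (n + 1 + 1) * c ^ (n + 1)
        ≤ (c + 1) * (c ^ (n + 1) + (n + 1) * c ^ n) := by
          have h0 : 0 ≤ (n + 1) * c ^ n := Nat.zero_le _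
          have e1 : (c + 1) * (c ^ (n + 1) + (n + 1) * c ^ n)
              = c ^ (n + 1 + 1) + (n + 1 + 1) * c ^ (n + 1) + (n + 1) * c ^ n := by ring
          rw [e1]
          exact Nat.le_add_right _ _
      _ ≤ (c + 1) * (c + 1) ^ (n + 1) := Nat.mul_le_mul_left _ ih
      _ = (c + 1) ^ (n + 1 + 1) := by ring

/-- Step (1). -/
theorem step1 {d : ℕ} (T : Finset (Fin d)) (U : Finset (Fin d → ℤ)) (hU : U.Nonempty) :
    ∃ T' : Finset (Fin d), T' ⊆ T ∧ T'.card = (T.card + 1) / 2 ∧ ∃ x0 ∈ U,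
      U.card ≤ 2 ^ (T.card + 1) * (U.filter fun x => ∀ i ∈ T', x i ≤ x0 i).card := by
  classical
  set K := T.card with hK
  set h := (K + 1) / 2 with hh
  let A : (Fin d → ℤ) → (Fin d → ℤ) → Finset (Fin d) := fun x y => T.filter fun i => x i ≤ y i
  have hA : ∀ x y, h ≤ (A x y).card ∨ h ≤ (A y x).card := by
    intro x y
    by_contra hcon
    push Not at hcon
    obtain ⟨h1, h2⟩ := hcon
    have hun : T ⊆ A x y ∪ A y x := by
      intro i hi
      rcases le_total (x i) (y i) with hle | hle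
      · exact mem_union_left _ (mem_filter.2 ⟨hi, hle⟩)
      · exact mem_union_right _ (mem_filter.2 ⟨hi, hle⟩)
    have h3 := card_le_card hun
    have h4 := card_union_le (A x y) (A y x)
    omega
  -- a good centre
  have hsum : U.card * U.card ≤ ∑ y ∈ U, 2 * (U.filter fun x => h ≤ (A x y).card).card := by
    have e1 : ∀ y, (U.filter fun x => h ≤ (A x y).card).card
        = ∑ x ∈ U, if h ≤ (A x y).card then 1 else 0 := by
      intro y
      rw [card_filter]
    have e2 : ∑ y ∈ U, 2 * (U.filter fun x => h ≤ (A x y).card).card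
        = ∑ y ∈ U, ∑ x ∈ U, ((if h ≤ (A x y).card then 1 else 0)
            + (if h ≤ (A y x).card then 1 else 0)) := by
      have e3 : ∑ y ∈ U, ∑ x ∈ U, (if h ≤ (A y x).card then 1 else 0)
          = ∑ y ∈ U, ∑ x ∈ U, (if h ≤ (A x y).card then 1 else 0) := sum_comm
      simp only [sum_add_distrib]
      rw [e3, ← sum_add_distrib]
      refine sum_congr rfl fun y _ => ?_
      rw [e1]
      ring
    rw [e2]
    have e4 : U.card * U.card = ∑ y ∈ U, ∑ x ∈ U, 1 := by simp
    rw [e4]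
    refine sum_le_sum fun y _ => sum_le_sum fun x _ => ?_
    rcases hA x y with h1 | h1
    · rw [if_pos h1]; omega
    · rw [if_pos h1]; omega
  obtain ⟨x0, hx0, hgood⟩ : ∃ x0 ∈ U, U.card ≤ 2 * (U.filter fun x => h ≤ (A x x0).card).card := by
    by_contra hcon
    push Not at hcon
    have := sum_lt_sum_of_nonempty hU hcon
    rw [sum_const, smul_eq_mul] at this
    omega
  set G := U.filter fun x => h ≤ (A x x0).card with hG
  -- choice of the coordinates
  have hch : ∀ x, ∃ T' : Finset (Fin d), x ∈ G → T' ⊆ A x x0 ∧ T'.card = h := by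
    intro x
    by_cases hx : x ∈ G
    · obtain ⟨T', h1, h2⟩ := exists_subset_card_eq (mem_filter.1 hx).2
      exact ⟨T', fun _ => ⟨h1, h2⟩⟩
    · exact ⟨∅, fun h' => absurd h' hx⟩
  choose f hf using hch
  have hmaps : ∀ x ∈ G, f x ∈ powersetCard h T := by
    intro x hx
    obtain ⟨h1, h2⟩ := hf x hx
    exact mem_powersetCard.2 ⟨h1.trans (filter_subset _ _), h2⟩
  have hcardp : (powersetCard h T).card ≤ 2 ^ K := by
    rw [card_powersetCard, ← hK]
    exact Nat.choose_le_two_pow K h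
  have hGne : G.Nonempty := by
    have hUpos : 0 < U.card := hU.card_pos
    exact card_pos.1 (by omega)
  have hpne : (powersetCard h T).Nonempty := by
    obtain ⟨x, hx⟩ := hGne
    exact ⟨_, hmaps x hx⟩
  obtain ⟨T', hT', hTc⟩ : ∃ T' ∈ powersetCard h T,
      U.card ≤ 2 ^ (K + 1) * (G.filter fun x => f x = T').card := by
    by_contra hcon
    push Not at hcon
    have h1 := sum_lt_sum_of_nonempty hpne hcon
    rw [← mul_sum, ← card_eq_sum_card_fiberwise hmaps, sum_const, smul_eq_mul] at h1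
    have h2 : (powersetCard h T).card * U.card ≤ 2 ^ K * U.card :=
      Nat.mul_le_mul_right _ hcardp
    have h3 : 2 ^ K * U.card ≤ 2 ^ K * (2 * G.card) := Nat.mul_le_mul_left _ hgood
    have h4 : 2 ^ K * (2 * G.card) = 2 ^ (K + 1) * G.card := by ring
    omega
  obtain ⟨hT1, hT2⟩ := mem_powersetCard.1 hT'
  refine ⟨T', hT1, hT2, x0, hx0, hTc.trans (Nat.mul_le_mul_left _ (card_le_card ?_))⟩
  intro x hx
  obtain ⟨hxG, hfx⟩ := mem_filter.1 hx
  refine mem_filter.2 ⟨(mem_filter.1 hxG).1, fun i hi => ?_⟩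
  have h1 := (hf x hxG).1
  rw [hfx] at h1
  exact (mem_filter.1 (h1 hi)).2

/-- Step (2). -/
theorem step2 {d : ℕ} (T : Finset (Fin d)) (L : Finset (Fin d → ℤ)) (m : ℕ) :
    ∀ U : Finset (Fin d → ℤ), U ⊆ L →
      U.card * (2 ^ (T.card + 1) - 1) ^ m < (2 ^ (T.card + 1)) ^ m →
      ∃ C : Finset (Finset (Fin d) × (Fin d → ℤ)), C.card ≤ m ∧
        (∀ q ∈ C, q.1 ⊆ T ∧ q.1.card = (T.card + 1) / 2 ∧ q.2 ∈ L) ∧
        ∀ x ∈ U, ∃ q ∈ C, ∀ i ∈ q.1, x i ≤ q.2 i := by
  classical
  induction m with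
  | zero =>
    intro U _ hU
    have : U = ∅ := by
      rw [pow_zero, pow_zero, mul_one] at hU
      exact card_eq_zero.1 (by omega)
    subst this
    exact ⟨∅, by simp, by simp, by simp⟩
  | succ m ih =>
    intro U hUL hU
    by_cases hne : U.Nonempty
    · obtain ⟨T', hT1, hT2, x0, hx0, hc⟩ := step1 T U hne
      set B := 2 ^ (T.card + 1) with hB
      set W := U.filter fun x => ∀ i ∈ T', x i ≤ x0 i with hW
      set U' := U.filter fun x => ¬ ∀ i ∈ T', x i ≤ x0 i with hU'
      have hcard : W.card + U'.card = U.card := card_filter_add_card_filter_not _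
      have hBpos : 0 < B := by positivity
      have hB1 : B - 1 + 1 = B := by omega
      have hle : B * U'.card ≤ (B - 1) * U.card := by
        have e1 : B * U'.card + B * W.card = B * U.card := by rw [← mul_add, ← hcard]; ring
        have e2 : (B - 1) * U.card + U.card = B * U.card := by
          calc (B - 1) * U.card + U.card = (B - 1 + 1) * U.card := by ring
            _ = B * U.card := by rw [hB1]
        omega
      have hlt : U'.card * (B - 1) ^ m < B ^ m := by
        have h1 : B * (U'.card * (B - 1) ^ m) < B * B ^ m := by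
          calc B * (U'.card * (B - 1) ^ m) = (B * U'.card) * (B - 1) ^ m := by ring
            _ ≤ ((B - 1) * U.card) * (B - 1) ^ m := Nat.mul_le_mul_right _ hle
            _ = U.card * (B - 1) ^ (m + 1) := by ring
            _ < B ^ (m + 1) := hU
            _ = B * B ^ m := by ring
        exact Nat.lt_of_mul_lt_mul_left h1
      obtain ⟨C, hC1, hC2, hC3⟩ := ih U' ((filter_subset _ _).trans hUL) hlt
      refine ⟨insert (T', x0) C, (card_insert_le _ _).trans (by omega), ?_, ?_⟩
      · intro q hq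
        rcases mem_insert.1 hq with rfl | hq
        · exact ⟨hT1, hT2, hUL hx0⟩
        · exact hC2 q hq
      · intro x hx
        by_cases hxc : ∀ i ∈ T', x i ≤ x0 i
        · exact ⟨(T', x0), mem_insert_self _ _, hxc⟩
        · obtain ⟨q, hq, hq2⟩ := hC3 x (mem_filter.2 ⟨hx, hxc⟩)
          exact ⟨q, mem_insert_of_mem hq, hq2⟩
    · rw [not_nonempty_iff_eq_empty] at hne
      subst hne
      exact ⟨∅, by simp, by simp, by simp⟩

/-- UQ-COV. -/
theorem thm : Helper71.UQ.G_COV := by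
  intro d Λ T L hL
  set B := 2 ^ (T.card + 1) with hB
  have hB2 : 2 ≤ B := by
    rw [hB, pow_succ]
    have : 0 < 2 ^ T.card := by positivity
    omega
  obtain ⟨c, hc⟩ : ∃ c, B = c + 1 := ⟨B - 1, by omega⟩
  have hc1 : 1 ≤ c := by omega
  have hBB : 2 * (B - 1) ^ B ≤ B ^ B := by
    have h1 := bern c c
    have h2 : c ^ (c + 1) ≤ (c + 1) * c ^ c := by
      calc c ^ (c + 1) = c * c ^ c := by ring
        _ ≤ (c + 1) * c ^ c := Nat.mul_le_mul_right _ (by omega)
    rw [hc]
    simp only [Nat.add_sub_cancel]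
    omega
  have hlt : L.card * (B - 1) ^ (B * (Λ + 1)) < B ^ (B * (Λ + 1)) := by
    have hpos : 0 < (B - 1) ^ (B * (Λ + 1)) := pow_pos (by omega) _
    calc L.card * (B - 1) ^ (B * (Λ + 1)) ≤ 2 ^ Λ * (B - 1) ^ (B * (Λ + 1)) :=
          Nat.mul_le_mul_right _ hL
      _ < 2 ^ (Λ + 1) * (B - 1) ^ (B * (Λ + 1)) := by
          refine Nat.mul_lt_mul_of_pos_right ?_ hpos
          exact Nat.pow_lt_pow_right (by omega) (by omega)
      _ = (2 * (B - 1) ^ B) ^ (Λ + 1) := by rw [mul_pow, ← pow_mul]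
      _ ≤ (B ^ B) ^ (Λ + 1) := Nat.pow_le_pow_left hBB _
      _ = B ^ (B * (Λ + 1)) := by rw [← pow_mul]
  obtain ⟨C, h1, h2, h3⟩ := step2 T L (B * (Λ + 1)) L (Subset.refl _) hlt
  exact ⟨C, h1, h2, h3⟩

end Pool.Agent.Helper9.UQ.PkCOV
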